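import Pool.Agent.Helper96.SE.Stmts
import Pool.Agent.Helper34.Grid.Xor

set_option autoImplicit false

/-! Module XOR: two consecutive blocks of a row are in different states. The proof follows
`Pool.Agent.Helper34.Grid.Xor`; there is one more column of blocks. -/

namespace Pool.Agent.Helper96.SE

open Pool.Agent.Helper52.Grid
open Pool.Agent.Helper34.Grid (Blk Crs kind_blk kind_cross col_split btw_mk SF SF4 SF8 ff)

/-- the kind of the cell of the row `i` in the subcolumn `m` -/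
def xor_kd (s : List Sub) (T : ℕ → Bool) (m i : ℕ) : Kind :=
  if m < s.length then kind (sg s m) i else if rk T i = .N then .plain else .blk

section
variable {s : List Sub} {M : ℕ} {T : ℕ → Bool} {hU vU : ℕ → ℕ → Bool}

lemma xor_kd_lt {m i : ℕ} (hm : m < s.length) : xor_kd s T m i = kind (sg s m) i := if_pos hm

lemma xor_hcell (s : List Sub) (M : ℕ) (T : ℕ → Bool) (m j i r : ℕ) (hm : m ≤ s.length) (hj : j < 4)
    (hi : i < 2 * M + 1) (hr : r < 6) :
    hN s M T (5 + 4 * m + j) (4 + 6 * i + r) = hCell (xor_kd s T m i) r j := by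
  rcases Nat.lt_or_ge m s.length with h | h
  · rw [xor_kd_lt h, hN_old (by omega),
      Pool.Agent.Helper34.Grid.hC_cell s M m j i r h hj hi hr]
  · have e : m = s.length := by omega
    subst e
    rw [hN_row (i := i) (r := r) (x := j) hi hr rfl rfl]
    unfold hE xor_kd
    rw [if_pos hj, if_neg (lt_irrefl _)]
    rcases hk : rk T i <;> simp

lemma xor_vcell (s : List Sub) (M : ℕ) (T : ℕ → Bool) (m j i r : ℕ) (hm : m ≤ s.length) (hj : j < 4)
    (hi : i < 2 * M + 1) (hr : r < 6) :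
    vN s M T (5 + 4 * m + j) (4 + 6 * i + r) = vCell (xor_kd s T m i) r j := by
  rcases Nat.lt_or_ge m s.length with h | h
  · rw [xor_kd_lt h, vN_old (by omega),
      Pool.Agent.Helper34.Grid.vC_cell s M m j i r h hj hi hr]
  · have e : m = s.length := by omega
    subst e
    rw [vN_row (i := i) (r := r) (x := j) hi hr rfl rfl]
    unfold vE xor_kd
    rw [if_pos hj, if_neg (lt_irrefl _)]
    rcases hk : rk T i <;> simp

/-- value of a horizontal edge from its cost -/
lemma xor_hval (U : Use (hN s M T) (vN s M T) hU vU) (m j i r : ℕ) (hm : m ≤ s.length) (hj : j < 4)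
    (hi : i < 2 * M + 1) (hr : r < 6) :
    (hCell (xor_kd s T m i) r j = 0 → hU (5 + 4 * m + j) (4 + 6 * i + r) = true) ∧
    (hCell (xor_kd s T m i) r j = 4 → hU (5 + 4 * m + j) (4 + 6 * i + r) = false) := by
  rw [← xor_hcell s M T m j i r hm hj hi hr]
  exact ⟨U.h0 _ _, fun h => U.h4 _ _ (by omega) (by omega)⟩

lemma xor_vval (U : Use (hN s M T) (vN s M T) hU vU) (m j i r : ℕ) (hm : m ≤ s.length) (hj : j < 4)
    (hi : i < 2 * M + 1) (hr : r < 6) :
    (vCell (xor_kd s T m i) r j = 0 → vU (5 + 4 * m + j) (4 + 6 * i + r) = true) ∧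
    (vCell (xor_kd s T m i) r j = 4 → vU (5 + 4 * m + j) (4 + 6 * i + r) = false) := by
  rw [← xor_vcell s M T m j i r hm hj hi hr]
  exact ⟨U.v0 _ _, fun h => U.v4 _ _ (by omega) (by omega)⟩

/-- degree condition at a vertex which has a horizontal forced edge to its left or right -/
lemma xor_degH (U : Use (hN s M T) (vN s M T) hU vU) (x y : ℕ)
    (h : hN s M T (x + 1) (y + 1) = 0 ∨ hN s M T x (y + 1) = 0 ∨ vN s M T (x + 1) (y + 1) = 0 ∨
      vN s M T (x + 1) y = 0) :
    (hU (x + 1) (y + 1)).toNat + (hU x (y + 1)).toNat + (vU (x + 1) (y + 1)).toNat +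
      (vU (x + 1) y).toNat = 2 := by
  apply U.deg x y
  unfold Vert
  simpa using h

lemma xor_blk (U : Use (hN s M T) (vN s M T) hU vU) {m i : ℕ} (hm : m ≤ s.length)
    (hi : i < 2 * M + 1) (hk : xor_kd s T m i = .blk ∨ xor_kd s T m i = .dblk) :
    Blk hU vU m i := by
  have H := fun j r (hj : j < 4) (hr : r < 6) => xor_hval U m j i r hm hj hi hr
  have V := fun j r (hj : j < 4) (hr : r < 6) => xor_vval U m j i r hm hj hi hr
  have CH := fun j r (hj : j < 4) (hr : r < 6) => xor_hcell s M T m j i r hm hj hi hr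
  -- b2
  have e1 : hU (5 + 4 * m + 0) (4 + 6 * i + 2) = true :=
    (H 0 2 (by norm_num) (by norm_num)).1 (by rcases hk with h | h <;> rw [h] <;> rfl)
  have e2 : hU (5 + 4 * m + 1) (4 + 6 * i + 2) = false :=
    (H 1 2 (by norm_num) (by norm_num)).2 (by rcases hk with h | h <;> rw [h] <;> rfl)
  have e3 : hU (5 + 4 * m + 2) (4 + 6 * i + 2) = true :=
    (H 2 2 (by norm_num) (by norm_num)).1 (by rcases hk with h | h <;> rw [h] <;> rfl)
  have e4 : hU (5 + 4 * m + 0) (4 + 6 * i + 3) = false :=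
    (H 0 3 (by norm_num) (by norm_num)).2 (by rcases hk with h | h <;> rw [h] <;> rfl)
  have e5 : hU (5 + 4 * m + 2) (4 + 6 * i + 3) = false :=
    (H 2 3 (by norm_num) (by norm_num)).2 (by rcases hk with h | h <;> rw [h] <;> rfl)
  have e6 : vU (5 + 4 * m + 1) (4 + 6 * i + 3) = true :=
    (V 1 3 (by norm_num) (by norm_num)).1 (by rcases hk with h | h <;> rw [h] <;> rfl)
  have e7 : vU (5 + 4 * m + 2) (4 + 6 * i + 3) = true :=
    (V 2 3 (by norm_num) (by norm_num)).1 (by rcases hk with h | h <;> rw [h] <;> rfl)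
  have e8 : hU (5 + 4 * m + 0) (4 + 6 * i + 1) = true :=
    (H 0 1 (by norm_num) (by norm_num)).1 (by rcases hk with h | h <;> rw [h] <;> rfl)
  have e9 : hU (5 + 4 * m + 2) (4 + 6 * i + 1) = true :=
    (H 2 1 (by norm_num) (by norm_num)).1 (by rcases hk with h | h <;> rw [h] <;> rfl)
  have c1 : hN s M T (5 + 4 * m + 0) (4 + 6 * i + 2) = 0 := by
    rw [CH 0 2 (by norm_num) (by norm_num)]; rcases hk with h | h <;> rw [h] <;> rfl
  have c2 : hN s M T (5 + 4 * m + 2) (4 + 6 * i + 2) = 0 := by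
    rw [CH 2 2 (by norm_num) (by norm_num)]; rcases hk with h | h <;> rw [h] <;> rfl
  have c3 : vN s M T (5 + 4 * m + 1) (4 + 6 * i + 3) = 0 := by
    rw [xor_vcell s M T m 1 i 3 hm (by norm_num) hi (by norm_num)]
    rcases hk with h | h <;> rw [h] <;> rfl
  have c4 : vN s M T (5 + 4 * m + 2) (4 + 6 * i + 3) = 0 := by
    rw [xor_vcell s M T m 2 i 3 hm (by norm_num) hi (by norm_num)]
    rcases hk with h | h <;> rw [h] <;> rfl
  have c5 : hN s M T (5 + 4 * m + 0) (4 + 6 * i + 1) = 0 := by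
    rw [CH 0 1 (by norm_num) (by norm_num)]; rcases hk with h | h <;> rw [h] <;> rfl
  have c6 : hN s M T (5 + 4 * m + 2) (4 + 6 * i + 1) = 0 := by
    rw [CH 2 1 (by norm_num) (by norm_num)]; rcases hk with h | h <;> rw [h] <;> rfl
  have n1 : 5 + 4 * m + 0 = 5 + 4 * m := by omega
  have n2 : 5 + 4 * m + 1 = 6 + 4 * m := by omega
  have n3 : 5 + 4 * m + 2 = 7 + 4 * m := by omega
  have l1 : 4 + 6 * i + 1 = 5 + 6 * i := by omega
  have l2 : 4 + 6 * i + 2 = 6 + 6 * i := by omega
  have l3 : 4 + 6 * i + 3 = 7 + 6 * i := by omega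
  rw [n1, l2] at e1 c1
  rw [n2, l2] at e2
  rw [n3, l2] at e3 c2
  rw [n1, l3] at e4
  rw [n3, l3] at e5
  rw [n2, l3] at e6 c3
  rw [n3, l3] at e7 c4
  rw [n1, l1] at e8 c5
  rw [n3, l1] at e9 c6
  have x1 : 5 + 4 * m + 1 = 6 + 4 * m := by omega
  have x2 : 6 + 4 * m + 1 = 7 + 4 * m := by omega
  have y1 : 4 + 6 * i + 1 = 5 + 6 * i := by omega
  have y2 : 5 + 6 * i + 1 = 6 + 6 * i := by omega
  have y3 : 6 + 6 * i + 1 = 7 + 6 * i := by omega
  have d1 := xor_degH U (5 + 4 * m) (5 + 6 * i) (by rw [y2]; exact Or.inr (Or.inl c1))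
  have d2 := xor_degH U (5 + 4 * m) (6 + 6 * i) (by
    rw [y3, x1]; exact Or.inr (Or.inr (Or.inl c3)))
  have d3 := xor_degH U (6 + 4 * m) (6 + 6 * i) (by
    rw [y3, x2]; exact Or.inr (Or.inr (Or.inl c4)))
  have d4 := xor_degH U (6 + 4 * m) (5 + 6 * i) (by rw [y2, x2]; exact Or.inl c2)
  have d5 := xor_degH U (5 + 4 * m) (4 + 6 * i) (by rw [y1]; exact Or.inr (Or.inl c5))
  have d6 := xor_degH U (6 + 4 * m) (4 + 6 * i) (by rw [y1, x2]; exact Or.inl c6)
  rw [x1, y2, e1, e2] at d1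
  rw [x1, y3, e4, e6] at d2
  rw [x2, y3, e5, e7] at d3
  rw [x2, y2, e3, e2] at d4
  rw [x1, y1, e8] at d5
  rw [x2, y1, e9] at d6
  simp only [Bool.toNat_true, Bool.toNat_false] at d1 d2 d3 d4 d5 d6
  refine ⟨?_, ?_, ?_, ?_, ?_, ?_⟩
  · revert d1; cases vU (6 + 4 * m) (6 + 6 * i) <;> cases vU (6 + 4 * m) (5 + 6 * i) <;> simp
  · revert d2; cases vU (6 + 4 * m) (6 + 6 * i) <;> cases hU (6 + 4 * m) (7 + 6 * i) <;> simp
  · revert d2 d3
    cases vU (6 + 4 * m) (6 + 6 * i) <;> cases hU (6 + 4 * m) (7 + 6 * i) <;>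
      cases vU (7 + 4 * m) (6 + 6 * i) <;> simp
  · revert d2 d3 d4
    cases vU (6 + 4 * m) (6 + 6 * i) <;> cases hU (6 + 4 * m) (7 + 6 * i) <;>
      cases vU (7 + 4 * m) (6 + 6 * i) <;> cases vU (7 + 4 * m) (5 + 6 * i) <;> simp
  · omega
  · omega

/-- the local facts at a xor_cluster on the line `y + 1` -/
lemma xor_cluster (U : Use (hN s M T) (vN s M T) hU vU) {m i r : ℕ} (hm : m ≤ s.length)
    (hi : i < 2 * M + 1) (hr : r < 6) (h1 : hCell (xor_kd s T m i) r 1 = 0)
    (h0 : hCell (xor_kd s T m i) r 0 = 4) (h2 : hCell (xor_kd s T m i) r 2 = 4) :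
    vU (6 + 4 * m) (3 + 6 * i + r) = (!vU (6 + 4 * m) (4 + 6 * i + r)) ∧
    vU (7 + 4 * m) (3 + 6 * i + r) = !vU (7 + 4 * m) (4 + 6 * i + r) := by
  have e0 := (xor_hval U m 0 i r hm (by norm_num) hi hr).2 h0
  have e1 := (xor_hval U m 1 i r hm (by norm_num) hi hr).1 h1
  have e2 := (xor_hval U m 2 i r hm (by norm_num) hi hr).2 h2
  have c1 := xor_hcell s M T m 1 i r hm (by norm_num) hi hr
  rw [h1] at c1
  have n1 : 5 + 4 * m + 0 = 5 + 4 * m := by omega
  have n2 : 5 + 4 * m + 1 = 6 + 4 * m := by omega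
  have n3 : 5 + 4 * m + 2 = 7 + 4 * m := by omega
  have n4 : 6 + 4 * m + 1 = 7 + 4 * m := by omega
  have y1 : 3 + 6 * i + r + 1 = 4 + 6 * i + r := by omega
  rw [n1] at e0
  rw [n2] at e1 c1
  rw [n3] at e2
  have d1 := xor_degH U (5 + 4 * m) (3 + 6 * i + r) (by rw [y1, n2]; exact Or.inl c1)
  have d2 := xor_degH U (6 + 4 * m) (3 + 6 * i + r) (by rw [y1]; exact Or.inr (Or.inl c1))
  rw [n2, y1, e0, e1] at d1
  rw [n4, y1, e1, e2] at d2
  simp only [Bool.toNat_true, Bool.toNat_false] at d1 d2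
  constructor
  · revert d1
    cases vU (6 + 4 * m) (3 + 6 * i + r) <;> cases vU (6 + 4 * m) (4 + 6 * i + r) <;> simp
  · revert d2
    cases vU (7 + 4 * m) (3 + 6 * i + r) <;> cases vU (7 + 4 * m) (4 + 6 * i + r) <;> simp

/-- a xor_digon passes on the parity -/
lemma xor_digon (U : Use (hN s M T) (vN s M T) hU vU) {m i r : ℕ} (hm : m ≤ s.length)
    (hi : i < 2 * M + 1) (hr : r < 6) (h0 : hCell (xor_kd s T m i) r 0 = 0)
    (h2 : hCell (xor_kd s T m i) r 2 = 0)
    (hp : vU (6 + 4 * m) (4 + 6 * i + r) = vU (7 + 4 * m) (4 + 6 * i + r)) :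
    vU (6 + 4 * m) (3 + 6 * i + r) = vU (7 + 4 * m) (3 + 6 * i + r) := by
  have e0 := (xor_hval U m 0 i r hm (by norm_num) hi hr).1 h0
  have e2 := (xor_hval U m 2 i r hm (by norm_num) hi hr).1 h2
  have c0 := xor_hcell s M T m 0 i r hm (by norm_num) hi hr
  have c2 := xor_hcell s M T m 2 i r hm (by norm_num) hi hr
  rw [h0] at c0
  rw [h2] at c2
  have n1 : 5 + 4 * m + 0 = 5 + 4 * m := by omega
  have n2 : 5 + 4 * m + 1 = 6 + 4 * m := by omega
  have n3 : 5 + 4 * m + 2 = 7 + 4 * m := by omega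
  have n4 : 6 + 4 * m + 1 = 7 + 4 * m := by omega
  have y1 : 3 + 6 * i + r + 1 = 4 + 6 * i + r := by omega
  rw [n1] at e0 c0
  rw [n3] at e2 c2
  have d1 := xor_degH U (5 + 4 * m) (3 + 6 * i + r) (by rw [y1]; exact Or.inr (Or.inl c0))
  have d2 := xor_degH U (6 + 4 * m) (3 + 6 * i + r) (by rw [y1, n4]; exact Or.inl c2)
  rw [n2, y1, e0] at d1
  rw [n4, y1, e2, ← hp] at d2
  simp only [Bool.toNat_true] at d1 d2
  revert d1 d2
  cases vU (6 + 4 * m) (3 + 6 * i + r) <;> cases vU (6 + 4 * m) (4 + 6 * i + r) <;>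
    cases vU (7 + 4 * m) (3 + 6 * i + r) <;> cases hU (6 + 4 * m) (4 + 6 * i + r) <;> simp

/-- all facts at a cross cell, given the parity below the row -/
lemma xor_par_row (U : Use (hN s M T) (vN s M T) hU vU) {m i : ℕ} (hm : m ≤ s.length)
    (hi : i + 1 < 2 * M + 1) (hk : xor_kd s T m i = .cross)
    (hk' : xor_kd s T m (i + 1) = .cross ∨ xor_kd s T m (i + 1) = .dblk)
    (hp : vU (6 + 4 * m) (10 + 6 * i) = vU (7 + 4 * m) (10 + 6 * i)) :
    ∀ r, r ≤ 6 → vU (6 + 4 * m) (4 + 6 * i + r) = vU (7 + 4 * m) (4 + 6 * i + r) := by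
  have hi0 : i < 2 * M + 1 := by omega
  -- line 9
  have c6 := xor_cluster U (r := 0) hm hi (by norm_num) (by rcases hk' with h | h <;> rw [h] <;> rfl)
    (by rcases hk' with h | h <;> rw [h] <;> rfl) (by rcases hk' with h | h <;> rw [h] <;> rfl)
  have l9 : 3 + 6 * (i + 1) + 0 = 9 + 6 * i := by omega
  have l10 : 4 + 6 * (i + 1) + 0 = 10 + 6 * i := by omega
  rw [l9, l10] at c6
  have p5 : vU (6 + 4 * m) (9 + 6 * i) = vU (7 + 4 * m) (9 + 6 * i) := by
    rw [c6.1, c6.2, hp]
  have q5 := xor_digon U (r := 5) hm hi0 (by norm_num) (by rw [hk]; rfl) (by rw [hk]; rfl)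
    (by
      have : 4 + 6 * i + 5 = 9 + 6 * i := by omega
      rw [this]; exact p5)
  have c4 := xor_cluster U (r := 4) hm hi0 (by norm_num) (by rw [hk]; rfl) (by rw [hk]; rfl)
    (by rw [hk]; rfl)
  have e4 : 3 + 6 * i + 5 = 4 + 6 * i + 4 := by omega
  rw [e4] at q5
  have q4 : vU (6 + 4 * m) (3 + 6 * i + 4) = vU (7 + 4 * m) (3 + 6 * i + 4) := by
    rw [c4.1, c4.2, q5]
  have e3 : 3 + 6 * i + 4 = 4 + 6 * i + 3 := by omega
  rw [e3] at q4
  have q3 := xor_digon U (r := 3) hm hi0 (by norm_num) (by rw [hk]; rfl) (by rw [hk]; rfl) q4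
  have e2 : 3 + 6 * i + 3 = 4 + 6 * i + 2 := by omega
  rw [e2] at q3
  have c2 := xor_cluster U (r := 2) hm hi0 (by norm_num) (by rw [hk]; rfl) (by rw [hk]; rfl)
    (by rw [hk]; rfl)
  have q2 : vU (6 + 4 * m) (3 + 6 * i + 2) = vU (7 + 4 * m) (3 + 6 * i + 2) := by
    rw [c2.1, c2.2, q3]
  have e1 : 3 + 6 * i + 2 = 4 + 6 * i + 1 := by omega
  rw [e1] at q2
  have q1 := xor_digon U (r := 1) hm hi0 (by norm_num) (by rw [hk]; rfl) (by rw [hk]; rfl) q2
  have e0 : 3 + 6 * i + 1 = 4 + 6 * i + 0 := by omega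
  rw [e0] at q1
  intro r hr
  have hr' : r = 0 ∨ r = 1 ∨ r = 2 ∨ r = 3 ∨ r = 4 ∨ r = 5 ∨ r = 6 := by omega
  rcases hr' with rfl | rfl | rfl | rfl | rfl | rfl | rfl
  · exact q1
  · exact q2
  · exact q3
  · exact q4
  · exact q5
  · have : 4 + 6 * i + 5 = 9 + 6 * i := by omega
    rw [this]; exact p5
  · have : 4 + 6 * i + 6 = 10 + 6 * i := by omega
    rw [this]; exact hp

/-- parity at the dock line of every row above the block of a docked subcolumn -/
lemma xor_par (U : Use (hN s M T) (vN s M T) hU vU) {m v : ℕ} (hm : m < s.length)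
    (hv : v < 2 * M + 1) (ho : sg s m = some (v, true)) :
    ∀ n i, i + n = v → vU (6 + 4 * m) (4 + 6 * i) = vU (7 + 4 * m) (4 + 6 * i) := by
  intro n
  induction n with
  | zero =>
    intro i hi
    have hiv : i = v := by omega
    subst hiv
    have B := xor_blk U hm.le hv (by rw [xor_kd_lt hm]; exact kind_blk ho)
    have h1 := B.b1
    have h2 := B.t1
    rw [B.b2] at h1
    rw [B.t2] at h2
    revert h1 h2
    cases vU (6 + 4 * m) (6 + 6 * i) <;> cases hU (6 + 4 * m) (5 + 6 * i) <;>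
      cases vU (6 + 4 * m) (4 + 6 * i) <;> cases vU (7 + 4 * m) (4 + 6 * i) <;> simp
  | succ n ih =>
    intro i hi
    have h1 := ih (i + 1) (by omega)
    have e : 4 + 6 * (i + 1) = 10 + 6 * i := by omega
    rw [e] at h1
    have hk : xor_kd s T m i = .cross := by rw [xor_kd_lt hm]; exact kind_cross ho (by omega)
    have hk' : xor_kd s T m (i + 1) = .cross ∨ xor_kd s T m (i + 1) = .dblk := by
      rcases Nat.lt_or_ge (i + 1) v with h | h
      · left
        rw [xor_kd_lt hm]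
        exact kind_cross ho h
      · right
        have : i + 1 = v := by omega
        rw [xor_kd_lt hm, ho, this]
        simp [kind]
    exact xor_par_row U hm.le (by omega) hk hk' h1 0 (by norm_num)

lemma xor_crs (U : Use (hN s M T) (vN s M T) hU vU) {m v i : ℕ} (hm : m < s.length)
    (hv : v < 2 * M + 1) (ho : sg s m = some (v, true)) (hi : i < v) : Crs hU vU m i := by
  have hk : xor_kd s T m i = .cross := by rw [xor_kd_lt hm]; exact kind_cross ho hi
  have hk' : xor_kd s T m (i + 1) = .cross ∨ xor_kd s T m (i + 1) = .dblk := by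
    rcases Nat.lt_or_ge (i + 1) v with h | h
    · left
      rw [xor_kd_lt hm]
      exact kind_cross ho h
    · right
      have : i + 1 = v := by omega
      rw [xor_kd_lt hm, ho, this]
      simp [kind]
  have h1 := xor_par U hm hv ho (v - (i + 1)) (i + 1) (by omega)
  have e : 4 + 6 * (i + 1) = 10 + 6 * i := by omega
  rw [e] at h1
  have hi0 : i < 2 * M + 1 := by omega
  have c6 := xor_cluster U (r := 0) (i := i + 1) hm.le (by omega) (by norm_num)
    (by rcases hk' with h | h <;> rw [h] <;> rfl)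
    (by rcases hk' with h | h <;> rw [h] <;> rfl) (by rcases hk' with h | h <;> rw [h] <;> rfl)
  have l9 : 3 + 6 * (i + 1) + 0 = 9 + 6 * i := by omega
  have l10 : 4 + 6 * (i + 1) + 0 = 10 + 6 * i := by omega
  rw [l9, l10] at c6
  have c4 := xor_cluster U (r := 4) hm.le hi0 (by norm_num) (by rw [hk]; rfl) (by rw [hk]; rfl)
    (by rw [hk]; rfl)
  have c2 := xor_cluster U (r := 2) hm.le hi0 (by norm_num) (by rw [hk]; rfl) (by rw [hk]; rfl)
    (by rw [hk]; rfl)
  have c0 := xor_cluster U (r := 0) hm.le hi0 (by norm_num) (by rw [hk]; rfl) (by rw [hk]; rfl)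
    (by rw [hk]; rfl)
  have a1 : 3 + 6 * i + 4 = 7 + 6 * i := by omega
  have a2 : 4 + 6 * i + 4 = 8 + 6 * i := by omega
  have a3 : 3 + 6 * i + 2 = 5 + 6 * i := by omega
  have a4 : 4 + 6 * i + 2 = 6 + 6 * i := by omega
  rw [a1, a2] at c4
  rw [a3, a4] at c2
  rw [Nat.add_zero, Nat.add_zero] at c0
  exact ⟨xor_par_row U hm.le (by omega) hk hk' h1, c0.1, c0.2, c2.1, c2.2, c4.1, c4.2, c6.1, c6.2⟩

/-- a used vertical edge inside a cell of row `i` without block -/
lemma xor_btw_v (U : Use (hN s M T) (vN s M T) hU vU)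
    (hs : ∀ k i d, sg s k = some (i, d) → i < 2 * M + 1) {m i : ℕ} (hm : m < s.length)
    (hi : i < 2 * M + 1) (hno : ∀ d, sg s m ≠ some (i, d)) {j r : ℕ} (hj : j < 4) (hr : r < 6)
    (h : vU (5 + 4 * m + j) (4 + 6 * i + r) = true) : (j = 1 ∨ j = 2) ∧ Crs hU vU m i := by
  have h1 := (xor_vval U m j i r hm.le hj hi hr).2
  rw [xor_kd_lt hm] at h1
  rcases ho : sg s m with _ | ⟨v, b⟩
  · exfalso
    rw [ho] at h1
    have : vU (5 + 4 * m + j) (4 + 6 * i + r) = false := h1 rfl
    rw [this] at h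
    exact absurd h (by simp)
  · have hvi : i ≠ v := fun e => hno b (by rw [ho, e])
    by_cases hc : b = true ∧ i < v
    · have hk : kind (sg s m) i = .cross := kind_cross (by rw [ho, hc.1]) hc.2
      rw [hk] at h1
      have hcr := xor_crs U hm (hs m v b ho) (by rw [ho, hc.1]) hc.2
      refine ⟨?_, hcr⟩
      have hj' : j = 0 ∨ j = 1 ∨ j = 2 ∨ j = 3 := by omega
      rcases hj' with rfl | rfl | rfl | rfl
      · have : vU (5 + 4 * m + 0) (4 + 6 * i + r) = false := h1 rfl
        rw [this] at h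
        exact absurd h (by simp)
      · exact Or.inl rfl
      · exact Or.inr rfl
      · have : vU (5 + 4 * m + 3) (4 + 6 * i + r) = false := h1 rfl
        rw [this] at h
        exact absurd h (by simp)
    · exfalso
      have hk : kind (sg s m) i = .plain := by
        rw [ho]
        simp only [kind, if_neg hvi, if_neg hc]
      rw [hk] at h1
      have : vU (5 + 4 * m + j) (4 + 6 * i + r) = false := h1 rfl
      rw [this] at h
      exact absurd h (by simp)

/-- a used horizontal edge inside a cell of row `i` without block -/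
lemma xor_btw_h (U : Use (hN s M T) (vN s M T) hU vU) {m i : ℕ} (hm : m < s.length)
    (hi : i < 2 * M + 1) (hno : ∀ d, sg s m ≠ some (i, d)) {j r : ℕ} (hj : j < 4) (hr : r < 6)
    (h : hU (5 + 4 * m + j) (4 + 6 * i + r) = true) : r % 2 = 1 ∨ j = 1 := by
  by_contra hcon
  push Not at hcon
  have h1 := (xor_hval U m j i r hm.le hj hi hr).2
  rw [xor_kd_lt hm] at h1
  have h2 : hCell (kind (sg s m) i) r j = 4 := by
    have hr' : r = 0 ∨ r = 2 ∨ r = 4 := by omega
    have hj' : j = 0 ∨ j = 2 ∨ j = 3 := by omega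
    have hk : kind (sg s m) i = .plain ∨ kind (sg s m) i = .cross := by
      rcases ho : sg s m with _ | ⟨v, b⟩
      · exact Or.inl rfl
      · have hvi : i ≠ v := fun e => hno b (by rw [ho, e])
        by_cases hc : b = true ∧ i < v
        · right; simp only [kind, if_neg hvi, if_pos hc]
        · left; simp only [kind, if_neg hvi, if_neg hc]
    rcases hk with h | h <;> rw [h] <;> rcases hr' with rfl | rfl | rfl <;>
      rcases hj' with rfl | rfl | rfl <;> rfl
  rw [h1 h2] at h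
  exact absurd h (by simp)

/-- horizontal edges on line `0` of a row, and below the last row -/
lemma xor_line0 (U : Use (hN s M T) (vN s M T) hU vU) {m i : ℕ} (hm : m ≤ s.length) {j : ℕ} (hj : j < 4)
    (h : hU (5 + 4 * m + j) (4 + 6 * i) = true) : j = 1 := by
  by_contra hcon
  by_cases hi : i < 2 * M + 1
  · have h1 := (xor_hval U m j i 0 hm hj hi (by norm_num)).2
    have h2 : hCell (xor_kd s T m i) 0 j = 4 := by
      have hj' : j = 0 ∨ j = 2 ∨ j = 3 := by omega
      cases xor_kd s T m i <;> rcases hj' with rfl | rfl | rfl <;> rfl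
    have h3 := h1 h2
    rw [Nat.add_zero] at h3
    rw [h3] at h
    exact absurd h (by simp)
  · have h2 : hN s M T (5 + 4 * m + j) (4 + 6 * i) = 4 := hN_bot (by omega)
    have h3 := U.h4 _ _ (by rw [h2]; norm_num) (by rw [h2]; norm_num)
    rw [h3] at h
    exact absurd h (by simp)

end

section
variable {s : List Sub} {M : ℕ} {T : ℕ → Bool} {hU vU : ℕ → ℕ → Bool}

lemma xor_blk_h (U : Use (hN s M T) (vN s M T) hU vU) {m i : ℕ} (hm : m ≤ s.length)
    (hi : i < 2 * M + 1) (hk : xor_kd s T m i = .blk ∨ xor_kd s T m i = .dblk)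
    {j r : ℕ} (hj : j < 4) (hr : r < 6) (h : hU (5 + 4 * m + j) (4 + 6 * i + r) = true) :
    r = 1 ∨ (r = 2 ∧ (j = 0 ∨ j = 2)) ∨ (r = 3 ∧ (j = 1 ∨ j = 3)) ∨ (r = 5 ∧ j ≠ 1) ∨
      (r = 0 ∧ j = 1) := by
  have h1 := (xor_hval U m j i r hm hj hi hr).2
  by_contra hcon
  have h2 : hCell (xor_kd s T m i) r j = 4 := by
    have hj' : j = 0 ∨ j = 1 ∨ j = 2 ∨ j = 3 := by omega
    have hr' : r = 0 ∨ r = 1 ∨ r = 2 ∨ r = 3 ∨ r = 4 ∨ r = 5 := by omega
    rcases hk with h | h <;> rw [h] <;> rcases hr' with rfl | rfl | rfl | rfl | rfl | rfl <;>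
      rcases hj' with rfl | rfl | rfl | rfl <;> first | rfl | (exfalso; apply hcon; simp)
  rw [h1 h2] at h
  exact absurd h (by simp)

lemma xor_blk_v (U : Use (hN s M T) (vN s M T) hU vU) {m i : ℕ} (hm : m ≤ s.length)
    (hi : i < 2 * M + 1) (hk : xor_kd s T m i = .blk ∨ xor_kd s T m i = .dblk)
    {j r : ℕ} (hj : j < 4) (hr : r < 6) (h : vU (5 + 4 * m + j) (4 + 6 * i + r) = true) :
    r = 2 ∨ (r < 5 ∧ (j = 1 ∨ j = 2)) := by
  have h1 := (xor_vval U m j i r hm hj hi hr).2
  by_contra hcon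
  have h2 : vCell (xor_kd s T m i) r j = 4 := by
    have hj' : j = 0 ∨ j = 1 ∨ j = 2 ∨ j = 3 := by omega
    have hr' : r = 0 ∨ r = 1 ∨ r = 2 ∨ r = 3 ∨ r = 4 ∨ r = 5 := by omega
    rcases hk with h | h <;> rw [h] <;> rcases hr' with rfl | rfl | rfl | rfl | rfl | rfl <;>
      rcases hj' with rfl | rfl | rfl | rfl <;> first | rfl | (exfalso; apply hcon; simp)
  rw [h1 h2] at h
  exact absurd h (by simp)

/-- the situation: two consecutive blocks of row `i` -/
structure xor_Sit (s : List Sub) (M : ℕ) (T : ℕ → Bool) (hU vU : ℕ → ℕ → Bool)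
    (i k k' : ℕ) : Prop where
  hs : ∀ k i d, sg s k = some (i, d) → i < 2 * M + 1
  U : Use (hN s M T) (vN s M T) hU vU
  hkk : k < k'
  hl : k' ≤ s.length
  hi : i < 2 * M + 1
  hk : xor_kd s T k i = .blk ∨ xor_kd s T k i = .dblk
  hk' : xor_kd s T k' i = .blk ∨ xor_kd s T k' i = .dblk
  hno : ∀ m, k < m → m < k' → ∀ d, sg s m ≠ some (i, d)

variable {i k k' : ℕ}

lemma xor_Sit.vert (S : xor_Sit s M T hU vU i k k') {x r : ℕ} (hr : r < 6) (h1 : 7 + 4 * k ≤ x)
    (h2 : x ≤ 6 + 4 * k') (h : vU x (4 + 6 * i + r) = true) :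
    (x = 7 + 4 * k ∧ r < 5) ∨ (x = 8 + 4 * k ∧ r = 2) ∨ (x = 5 + 4 * k' ∧ r = 2) ∨
      (x = 6 + 4 * k' ∧ r < 5) ∨
      ∃ m, k < m ∧ m < k' ∧ (x = 6 + 4 * m ∨ x = 7 + 4 * m) ∧ Crs hU vU m i := by
  obtain ⟨m, j, hx, hj, hm1, hm2⟩ := col_split k k' x (by omega) (by omega)
  subst hx
  have hl := S.hl
  rcases Nat.lt_or_ge k m with hlt | hge
  · rcases Nat.lt_or_ge m k' with hlt' | hge'
    · right; right; right; right
      have := xor_btw_v S.U S.hs (by omega) S.hi (S.hno m hlt hlt') hj hr h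
      exact ⟨m, hlt, hlt', by omega, this.2⟩
    · have : m = k' := by omega
      subst this
      have := xor_blk_v S.U (by omega) S.hi S.hk' hj hr h
      omega
  · have : m = k := by omega
    subst this
    have := xor_blk_v S.U (by omega) S.hi S.hk hj hr h
    omega

lemma xor_Sit.hor (S : xor_Sit s M T hU vU i k k') {x r : ℕ} (hr : r < 6) (h1 : 6 + 4 * k ≤ x)
    (h2 : x ≤ 6 + 4 * k') (h : hU x (4 + 6 * i + r) = true) :
    (x = 6 + 4 * k ∧ (r = 0 ∨ r = 1 ∨ r = 3)) ∨ (x = 7 + 4 * k ∧ (r = 1 ∨ r = 2 ∨ r = 5)) ∨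
      (x = 8 + 4 * k ∧ r % 2 = 1) ∨ (x = 5 + 4 * k' ∧ (r = 1 ∨ r = 2 ∨ r = 5)) ∨
      (x = 6 + 4 * k' ∧ (r = 0 ∨ r = 1 ∨ r = 3)) ∨
      ∃ m, k < m ∧ m < k' ∧ ((r % 2 = 1 ∧ 5 + 4 * m ≤ x ∧ x < 9 + 4 * m) ∨ x = 6 + 4 * m) := by
  obtain ⟨m, j, hx, hj, hm1, hm2⟩ := col_split k k' x (by omega) (by omega)
  subst hx
  have hl := S.hl
  rcases Nat.lt_or_ge k m with hlt | hge
  · rcases Nat.lt_or_ge m k' with hlt' | hge'
    · right; right; right; right; right
      have := xor_btw_h S.U (by omega) S.hi (S.hno m hlt hlt') hj hr h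
      exact ⟨m, hlt, hlt', by omega⟩
    · have : m = k' := by omega
      subst this
      have := xor_blk_h S.U (by omega) S.hi S.hk' hj hr h
      omega
  · have : m = k := by omega
    subst this
    have := xor_blk_h S.U (by omega) S.hi S.hk hj hr h
    omega

lemma xor_Sit.hor6 (S : xor_Sit s M T hU vU i k k') {x : ℕ} (h1 : 6 + 4 * k ≤ x)
    (h2 : x ≤ 6 + 4 * k') (h : hU x (10 + 6 * i) = true) : x % 4 = 2 := by
  obtain ⟨m, j, hx, hj, hm1, hm2⟩ := col_split k k' x (by omega) (by omega)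
  subst hx
  have hl := S.hl
  have e : 10 + 6 * i = 4 + 6 * (i + 1) := by omega
  rw [e] at h
  have := xor_line0 S.U (i := i + 1) (m := m) (by omega) hj h
  omega

lemma ST_h (S : xor_Sit s M T hU vU i k k') (g : hU (6 + 4 * k) (7 + 6 * i) = false)
    (g' : hU (6 + 4 * k') (7 + 6 * i) = false) (x y : ℕ) (h : hU x y = true) :
    Helper34.Grid.ST vU i k k' (x, y) ↔ Helper34.Grid.ST vU i k k' (x + 1, y) := by
  have hkk := S.hkk
  by_cases hx : 6 + 4 * k ≤ x ∧ x ≤ 6 + 4 * k'
  swap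
  · -- both sides are false
    constructor
    · intro h1
      exfalso
      simp only [Helper34.Grid.ST, Helper34.Grid.btw] at h1
      omega
    · intro h1
      exfalso
      simp only [Helper34.Grid.ST, Helper34.Grid.btw] at h1
      omega
  obtain ⟨hx1, hx2⟩ := hx
  by_cases h2 : y = 6 + 6 * i
  · subst h2
    have e : 6 + 6 * i = 4 + 6 * i + 2 := by omega
    have h' := h
    rw [e] at h'
    rcases S.hor (by norm_num) hx1 hx2 h' with ⟨_, hr⟩ | ⟨rfl, _⟩ | ⟨_, hr⟩ | ⟨rfl, _⟩ | ⟨_, hr⟩ |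
      ⟨m, hm1, hm2, hm⟩
    · omega
    · exact ⟨fun _ => Or.inl ⟨rfl, Or.inr (Or.inl (by simp only; omega))⟩,
        fun _ => Or.inl ⟨rfl, Or.inl rfl⟩⟩
    · omega
    · exact ⟨fun _ => Or.inl ⟨rfl, Or.inr (Or.inr (Or.inr (Or.inl (by simp only; omega))))⟩,
        fun _ => Or.inl ⟨rfl, Or.inr (Or.inr (Or.inl rfl))⟩⟩
    · omega
    · have hxm : x = 6 + 4 * m := by omega
      subst hxm
      have b1 := btw_mk hm1 hm2 (Or.inl (rfl : 6 + 4 * m = 6 + 4 * m))
      have b2 := btw_mk hm1 hm2 (x := 6 + 4 * m + 1) (Or.inr (by omega))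
      constructor
      · rintro (⟨_, h3⟩ | ⟨h3, _⟩ | ⟨h3, _⟩ | ⟨h3, _⟩)
        · refine Or.inl ⟨rfl, Or.inr (Or.inr (Or.inr (Or.inr ⟨b2.1, ?_⟩)))⟩
          simp only at h3 ⊢
          rw [b2.2]
          rcases h3 with h3 | h3 | h3 | h3 | h3
          · omega
          · omega
          · omega
          · omega
          · rw [b1.2] at h3; exact h3.2
        · simp only at h3; omega
        · simp only at h3; omega
        · simp only at h3; omega
      · rintro (⟨_, h3⟩ | ⟨h3, _⟩ | ⟨h3, _⟩ | ⟨h3, _⟩)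
        · refine Or.inl ⟨rfl, Or.inr (Or.inr (Or.inr (Or.inr ⟨b1.1, ?_⟩)))⟩
          simp only at h3 ⊢
          rw [b1.2]
          rcases h3 with h3 | h3 | h3 | h3 | h3
          · omega
          · omega
          · omega
          · omega
          · rw [b2.2] at h3; exact h3.2
        · simp only at h3; omega
        · simp only at h3; omega
        · simp only at h3; omega
  by_cases h3 : y = 7 + 6 * i
  · subst h3
    have n1 : x ≠ 6 + 4 * k := by rintro rfl; rw [g] at h; exact absurd h (by simp)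
    have n2 : x ≠ 6 + 4 * k' := by rintro rfl; rw [g'] at h; exact absurd h (by simp)
    exact ⟨fun _ => Or.inr (Or.inl ⟨Or.inl rfl, by simp only; omega, by simp only; omega⟩),
      fun _ => Or.inr (Or.inl ⟨Or.inl rfl, by simp only; omega, by simp only; omega⟩)⟩
  by_cases h5 : y = 9 + 6 * i
  · subst h5
    have e : 9 + 6 * i = 4 + 6 * i + 5 := by omega
    have h' := h
    rw [e] at h'
    have hh := S.hor (by norm_num) hx1 hx2 h'
    have hx3 : x ≠ 6 + 4 * k ∧ x ≠ 6 + 4 * k' := by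
      rcases hh with ⟨_, hr⟩ | ⟨hr, _⟩ | ⟨hr, _⟩ | ⟨hr, _⟩ | ⟨_, hr⟩ | ⟨m, hm1, hm2, hm⟩
      · omega
      · omega
      · omega
      · omega
      · omega
      · omega
    exact ⟨fun _ => Or.inr (Or.inl ⟨Or.inr rfl, by simp only; omega, by simp only; omega⟩),
      fun _ => Or.inr (Or.inl ⟨Or.inr rfl, by simp only; omega, by simp only; omega⟩)⟩
  by_cases h4 : y = 8 + 6 * i
  · subst h4
    have e : 8 + 6 * i = 4 + 6 * i + 4 := by omega
    have h' := h
    rw [e] at h'
    have hh := S.hor (by norm_num) hx1 hx2 h'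
    rcases hh with ⟨_, hr⟩ | ⟨_, hr⟩ | ⟨_, hr⟩ | ⟨_, hr⟩ | ⟨_, hr⟩ | ⟨m, hm1, hm2, hm⟩
    · omega
    · omega
    · omega
    · omega
    · omega
    · have hxm : x = 6 + 4 * m := by omega
      subst hxm
      have b1 := btw_mk hm1 hm2 (Or.inl (rfl : 6 + 4 * m = 6 + 4 * m))
      have b2 := btw_mk hm1 hm2 (x := 6 + 4 * m + 1) (Or.inr (by omega))
      exact ⟨fun _ => Or.inr (Or.inr (Or.inl ⟨rfl, Or.inr (Or.inr b2.1)⟩)),
        fun _ => Or.inr (Or.inr (Or.inl ⟨rfl, Or.inr (Or.inr b1.1)⟩))⟩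
  by_cases h6 : y = 10 + 6 * i
  · subst h6
    have hx4 := S.hor6 hx1 hx2 h
    constructor
    · rintro (⟨h3, _⟩ | ⟨h3, _⟩ | ⟨h3, _⟩ | ⟨_, h3, h4⟩)
      · simp only at h3; omega
      · simp only at h3; omega
      · simp only at h3; omega
      · simp only at h3 h4
        obtain ⟨a1, a2, a3, a4⟩ := h3
        have b2 := btw_mk a2 a3 (x := x + 1) (Or.inr (by omega))
        refine Or.inr (Or.inr (Or.inr ⟨rfl, b2.1, ?_⟩))
        simp only
        rw [b2.2]
        exact h4
    · rintro (⟨h3, _⟩ | ⟨h3, _⟩ | ⟨h3, _⟩ | ⟨_, h3, h4⟩)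
      · simp only at h3; omega
      · simp only at h3; omega
      · simp only at h3; omega
      · simp only at h3 h4
        obtain ⟨a1, a2, a3, a4⟩ := h3
        have b2 := btw_mk a2 a3 (x := x) (Or.inl (by omega))
        refine Or.inr (Or.inr (Or.inr ⟨rfl, b2.1, ?_⟩))
        simp only
        rw [b2.2]
        exact h4
  · constructor
    · intro h1
      exfalso
      simp only [Helper34.Grid.ST] at h1
      omega
    · intro h1
      exfalso
      simp only [Helper34.Grid.ST] at h1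
      omega

/-- the crossed cell behind a used vertical edge of a xor_cluster column -/
lemma xor_Sit.crs_of (S : xor_Sit s M T hU vU i k k') {m r : ℕ} (hr : r < 6) (h1 : k < m) (h2 : m < k')
    (h : vU (6 + 4 * m) (4 + 6 * i + r) = true) : Crs hU vU m i := by
  rcases S.vert hr (by omega) (by omega) h with ⟨h3, _⟩ | ⟨h3, _⟩ | ⟨h3, _⟩ | ⟨h3, _⟩ |
    ⟨m', hm1, hm2, hm, hc⟩
  · omega
  · omega
  · omega
  · omega
  · have : m' = m := by omega
    subst this
    exact hc

lemma ST_v (S : xor_Sit s M T hU vU i k k') (g : vU (7 + 4 * k) (5 + 6 * i) = false)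
    (g' : vU (6 + 4 * k') (5 + 6 * i) = false) (x y : ℕ) (h : vU x y = true) :
    Helper34.Grid.ST vU i k k' (x, y) ↔ Helper34.Grid.ST vU i k k' (x, y + 1) := by
  have hkk := S.hkk
  by_cases hx : 7 + 4 * k ≤ x ∧ x ≤ 6 + 4 * k'
  swap
  · -- both sides are false
    constructor
    · intro h1
      exfalso
      simp only [Helper34.Grid.ST, Helper34.Grid.btw] at h1
      omega
    · intro h1
      exfalso
      simp only [Helper34.Grid.ST, Helper34.Grid.btw] at h1
      omega
  obtain ⟨hx1, hx2⟩ := hx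
  by_cases h1 : y = 5 + 6 * i
  · subst h1
    have e : 5 + 6 * i = 4 + 6 * i + 1 := by omega
    have h' := h
    rw [e] at h'
    constructor
    · intro h1
      exfalso
      simp only [Helper34.Grid.ST] at h1
      omega
    · intro h1
      exfalso
      rcases S.vert (by norm_num) hx1 hx2 h' with ⟨rfl, _⟩ | ⟨_, hr⟩ | ⟨_, hr⟩ | ⟨rfl, _⟩ |
        ⟨m, hm1, hm2, hm, hc⟩
      · exact ff h g
      · omega
      · omega
      · exact ff h g'
      · have b1 := btw_mk hm1 hm2 hm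
        rcases h1 with ⟨_, h3⟩ | ⟨h3, _⟩ | ⟨h3, _⟩ | ⟨h3, _⟩
        · simp only at h3
          rw [b1.2] at h3
          have h4 : vU (6 + 4 * m) (6 + 6 * i) = true := by
            rcases h3 with h3 | h3 | h3 | h3 | h3
            · omega
            · omega
            · omega
            · omega
            · exact h3.2
          rcases hm with rfl | rfl
          · rw [hc.c2, h4] at h
            exact absurd h (by simp)
          · have h5 := hc.par 2 (by norm_num)
            have e2 : 4 + 6 * i + 2 = 6 + 6 * i := by omega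
            rw [e2] at h5
            rw [hc.c2', ← h5, h4] at h
            exact absurd h (by simp)
        · simp only at h3; omega
        · simp only at h3; omega
        · simp only at h3; omega
  by_cases h2 : y = 6 + 6 * i
  · subst h2
    have e : 6 + 6 * i = 4 + 6 * i + 2 := by omega
    have h' := h
    rw [e] at h'
    constructor
    · intro _
      exact Or.inr (Or.inl ⟨Or.inl (by simp only; omega), hx1, hx2⟩)
    · intro _
      refine Or.inl ⟨rfl, ?_⟩
      simp only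
      rcases S.vert (by norm_num) hx1 hx2 h' with ⟨hr, _⟩ | ⟨hr, _⟩ | ⟨hr, _⟩ | ⟨hr, _⟩ |
        ⟨m, hm1, hm2, hm, hc⟩
      · exact Or.inl hr
      · exact Or.inr (Or.inl hr)
      · exact Or.inr (Or.inr (Or.inl hr))
      · exact Or.inr (Or.inr (Or.inr (Or.inl hr)))
      · have b1 := btw_mk hm1 hm2 hm
        refine Or.inr (Or.inr (Or.inr (Or.inr ⟨b1.1, ?_⟩)))
        rw [b1.2]
        rcases hm with rfl | rfl
        · exact h
        · have h5 := hc.par 2 (by norm_num)
          rw [← e] at h5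
          rw [h5]
          exact h
  by_cases h3 : y = 7 + 6 * i ∨ y = 8 + 6 * i
  · have hv : x = 7 + 4 * k ∨ x = 6 + 4 * k' ∨ Helper34.Grid.btw k k' x := by
      rcases h3 with rfl | rfl
      · have e : 7 + 6 * i = 4 + 6 * i + 3 := by omega
        have h' := h
        rw [e] at h'
        rcases S.vert (by norm_num) hx1 hx2 h' with ⟨hr, _⟩ | ⟨_, hr⟩ | ⟨_, hr⟩ | ⟨hr, _⟩ |
          ⟨m, hm1, hm2, hm, hc⟩
        · exact Or.inl hr
        · omega
        · omega
        · exact Or.inr (Or.inl hr)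
        · exact Or.inr (Or.inr (btw_mk hm1 hm2 hm).1)
      · have e : 8 + 6 * i = 4 + 6 * i + 4 := by omega
        have h' := h
        rw [e] at h'
        rcases S.vert (by norm_num) hx1 hx2 h' with ⟨hr, _⟩ | ⟨_, hr⟩ | ⟨_, hr⟩ | ⟨hr, _⟩ |
          ⟨m, hm1, hm2, hm, hc⟩
        · exact Or.inl hr
        · omega
        · omega
        · exact Or.inr (Or.inl hr)
        · exact Or.inr (Or.inr (btw_mk hm1 hm2 hm).1)
    have a1 : Helper34.Grid.ST vU i k k' (x, 8 + 6 * i) := Or.inr (Or.inr (Or.inl ⟨rfl, hv⟩))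
    have a2 : Helper34.Grid.ST vU i k k' (x, 7 + 6 * i) := Or.inr (Or.inl ⟨Or.inl rfl, hx1, hx2⟩)
    have a3 : Helper34.Grid.ST vU i k k' (x, 9 + 6 * i) := Or.inr (Or.inl ⟨Or.inr rfl, hx1, hx2⟩)
    rcases h3 with rfl | rfl
    · have e : 7 + 6 * i + 1 = 8 + 6 * i := by omega
      rw [e]
      exact ⟨fun _ => a1, fun _ => a2⟩
    · have e : 8 + 6 * i + 1 = 9 + 6 * i := by omega
      rw [e]
      exact ⟨fun _ => a3, fun _ => a1⟩
  by_cases h5 : y = 9 + 6 * i
  · subst h5
    have e : 9 + 6 * i = 4 + 6 * i + 5 := by omega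
    have h' := h
    rw [e] at h'
    constructor
    · intro _
      rcases S.vert (by norm_num) hx1 hx2 h' with ⟨_, hr⟩ | ⟨_, hr⟩ | ⟨_, hr⟩ | ⟨_, hr⟩ |
        ⟨m, hm1, hm2, hm, hc⟩
      · omega
      · omega
      · omega
      · omega
      · have b1 := btw_mk hm1 hm2 hm
        refine Or.inr (Or.inr (Or.inr ⟨by simp only; omega, b1.1, ?_⟩))
        simp only
        rw [b1.2]
        rcases hm with rfl | rfl
        · exact h
        · have h5 := hc.par 5 (by norm_num)
          rw [← e] at h5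
          rw [h5]
          exact h
    · intro _
      exact Or.inr (Or.inl ⟨Or.inr rfl, hx1, hx2⟩)
  by_cases h6 : y = 10 + 6 * i
  · subst h6
    constructor
    · rintro (⟨h3, _⟩ | ⟨h3, _⟩ | ⟨h3, _⟩ | ⟨_, h3, h4⟩)
      · simp only at h3; omega
      · simp only at h3; omega
      · simp only at h3; omega
      · exfalso
        simp only at h3 h4
        obtain ⟨a1, a2, a3, a4⟩ := h3
        generalize hm : (x - 5) / 4 = m at *
        have e : 9 + 6 * i = 4 + 6 * i + 5 := by omega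
        have h4' := h4
        rw [e] at h4'
        have hc := S.crs_of (by norm_num) a2 a3 h4'
        have hxm : x = 6 + 4 * m ∨ x = 7 + 4 * m := by omega
        rcases hxm with rfl | rfl
        · rw [hc.c6, h] at h4
          exact absurd h4 (by simp)
        · have h5 := hc.par 5 (by norm_num)
          rw [← e] at h5
          rw [h5, hc.c6', h] at h4
          exact absurd h4 (by simp)
    · intro h1
      exfalso
      simp only [Helper34.Grid.ST] at h1
      omega
  · constructor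
    · intro h1
      exfalso
      simp only [Helper34.Grid.ST] at h1
      omega
    · intro h1
      exfalso
      simp only [Helper34.Grid.ST] at h1
      omega

lemma SF_h (S : xor_Sit s M T hU vU i k k') (g : hU (6 + 4 * k) (5 + 6 * i) = false)
    (g' : hU (6 + 4 * k') (5 + 6 * i) = false) (x y : ℕ) (h : hU x y = true) :
    SF vU i k k' (x, y) ↔ SF vU i k k' (x + 1, y) := by
  have hkk := S.hkk
  by_cases hx : 6 + 4 * k ≤ x ∧ x ≤ 6 + 4 * k'
  swap
  · constructor
    · intro h1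
      exfalso
      simp only [SF, Helper34.Grid.btw] at h1
      omega
    · intro h1
      exfalso
      simp only [SF, Helper34.Grid.btw] at h1
      omega
  obtain ⟨hx1, hx2⟩ := hx
  by_cases h0 : y = 4 + 6 * i
  · subst h0
    rcases S.hor (r := 0) (by norm_num) hx1 hx2 h with ⟨hr, _⟩ | ⟨_, hr⟩ | ⟨_, hr⟩ | ⟨_, hr⟩ |
      ⟨hr, _⟩ | ⟨m, hm1, hm2, hm⟩
    · subst hr
      simp only [SF, Helper34.Grid.btw]
      omega
    · omega
    · omega
    · omega
    · subst hr
      simp only [SF, Helper34.Grid.btw]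
      omega
    · have hxm : x = 6 + 4 * m := by omega
      subst hxm
      rw [SF4 hm1 hm2 (Or.inl rfl), SF4 hm1 hm2 (Or.inr (by omega))]
  by_cases h1 : y = 5 + 6 * i
  · subst h1
    have n1 : x ≠ 6 + 4 * k := by rintro rfl; exact ff h g
    have n2 : x ≠ 6 + 4 * k' := by rintro rfl; exact ff h g'
    exact ⟨fun _ => Or.inr (Or.inl ⟨rfl, by simp only; omega, by simp only; omega⟩),
      fun _ => Or.inr (Or.inl ⟨rfl, by simp only; omega, by simp only; omega⟩)⟩
  by_cases h2 : y = 6 + 6 * i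
  · subst h2
    have e : 6 + 6 * i = 4 + 6 * i + 2 := by omega
    have h' := h
    rw [e] at h'
    rcases S.hor (by norm_num) hx1 hx2 h' with ⟨_, hr⟩ | ⟨rfl, _⟩ | ⟨_, hr⟩ | ⟨rfl, _⟩ | ⟨_, hr⟩ |
      ⟨m, hm1, hm2, hm⟩
    · omega
    · exact ⟨fun _ => Or.inl ⟨rfl, Or.inr (Or.inl (by simp only; omega))⟩,
        fun _ => Or.inl ⟨rfl, Or.inl rfl⟩⟩
    · omega
    · exact ⟨fun _ => Or.inl ⟨rfl, Or.inr (Or.inr (Or.inr (Or.inl (by simp only; omega))))⟩,
        fun _ => Or.inl ⟨rfl, Or.inr (Or.inr (Or.inl rfl))⟩⟩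
    · omega
    · have hxm : x = 6 + 4 * m := by omega
      subst hxm
      have b1 := btw_mk hm1 hm2 (Or.inl (rfl : 6 + 4 * m = 6 + 4 * m))
      have b2 := btw_mk hm1 hm2 (x := 6 + 4 * m + 1) (Or.inr (by omega))
      exact ⟨fun _ => Or.inl ⟨rfl, Or.inr (Or.inr (Or.inr (Or.inr b2.1)))⟩,
        fun _ => Or.inl ⟨rfl, Or.inr (Or.inr (Or.inr (Or.inr b1.1)))⟩⟩
  by_cases h3 : y = 7 + 6 * i
  · subst h3
    have e : 7 + 6 * i = 4 + 6 * i + 3 := by omega
    have h' := h
    rw [e] at h'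
    rcases S.hor (by norm_num) hx1 hx2 h' with ⟨hr, _⟩ | ⟨_, hr⟩ | ⟨hr, _⟩ | ⟨_, hr⟩ |
      ⟨hr, _⟩ | ⟨m, hm1, hm2, hm⟩
    · subst hr
      simp only [SF, Helper34.Grid.btw]
      omega
    · omega
    · exact ⟨fun _ => Or.inr (Or.inr (Or.inl ⟨rfl, by simp only; omega, by simp only; omega⟩)),
        fun _ => Or.inr (Or.inr (Or.inl ⟨rfl, by simp only; omega, by simp only; omega⟩))⟩
    · omega
    · subst hr
      simp only [SF, Helper34.Grid.btw]
      omega
    · exact ⟨fun _ => Or.inr (Or.inr (Or.inl ⟨rfl, by simp only; omega, by simp only; omega⟩)),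
        fun _ => Or.inr (Or.inr (Or.inl ⟨rfl, by simp only; omega, by simp only; omega⟩))⟩
  by_cases h4 : y = 8 + 6 * i
  · subst h4
    have e : 8 + 6 * i = 4 + 6 * i + 4 := by omega
    have h' := h
    rw [e] at h'
    rcases S.hor (by norm_num) hx1 hx2 h' with ⟨_, hr⟩ | ⟨_, hr⟩ | ⟨_, hr⟩ | ⟨_, hr⟩ | ⟨_, hr⟩ |
      ⟨m, hm1, hm2, hm⟩
    · omega
    · omega
    · omega
    · omega
    · omega
    · have hxm : x = 6 + 4 * m := by omega
      subst hxm
      rw [SF8 hm1 hm2 (Or.inl rfl), SF8 hm1 hm2 (Or.inr (by omega))]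
  · constructor
    · intro h1
      exfalso
      simp only [SF] at h1
      omega
    · intro h1
      exfalso
      simp only [SF] at h1
      omega

lemma SF_v (S : xor_Sit s M T hU vU i k k') (g0 : vU (7 + 4 * k) (4 + 6 * i) = false)
    (g0' : vU (6 + 4 * k') (4 + 6 * i) = false) (g2 : vU (7 + 4 * k) (6 + 6 * i) = false)
    (g2' : vU (6 + 4 * k') (6 + 6 * i) = false) (x y : ℕ) (h : vU x y = true) :
    SF vU i k k' (x, y) ↔ SF vU i k k' (x, y + 1) := by
  have hkk := S.hkk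
  by_cases hx : 7 + 4 * k ≤ x ∧ x ≤ 6 + 4 * k'
  swap
  · constructor
    · intro h1
      exfalso
      simp only [SF, Helper34.Grid.btw] at h1
      omega
    · intro h1
      exfalso
      simp only [SF, Helper34.Grid.btw] at h1
      omega
  obtain ⟨hx1, hx2⟩ := hx
  by_cases hm1 : y + 1 = 4 + 6 * i
  · have ey : y = 3 + 6 * i := by omega
    subst ey
    rw [hm1]
    constructor
    · intro h1
      exfalso
      simp only [SF] at h1
      omega
    · rintro (⟨h3, _⟩ | ⟨h3, _⟩ | ⟨h3, _⟩ | ⟨_, h3, h4⟩ | ⟨h3, _⟩)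
      · simp only at h3; omega
      · simp only at h3; omega
      · simp only at h3; omega
      · exfalso
        simp only at h3 h4
        obtain ⟨a1, a2, a3, a4⟩ := h3
        generalize hm : (x - 5) / 4 = m at *
        have hc := S.crs_of (r := 0) (by norm_num) a2 a3 h4
        have hxm : x = 6 + 4 * m ∨ x = 7 + 4 * m := by omega
        rcases hxm with rfl | rfl
        · rw [hc.c0, h4] at h
          exact absurd h (by simp)
        · have h5 := hc.par 0 (by norm_num)
          rw [Nat.add_zero] at h5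
          rw [hc.c0', ← h5, h4] at h
          exact absurd h (by simp)
      · simp only at h3; omega
  by_cases h0 : y = 4 + 6 * i
  · subst h0
    have a1 : SF vU i k k' (x, 4 + 6 * i + 1) :=
      Or.inr (Or.inl ⟨by simp only; omega, hx1, hx2⟩)
    refine ⟨fun _ => a1, fun _ => ?_⟩
    rcases S.vert (r := 0) (by norm_num) hx1 hx2 h with ⟨rfl, _⟩ | ⟨_, hr⟩ | ⟨_, hr⟩ |
      ⟨rfl, _⟩ | ⟨m, hm1, hm2, hm, hc⟩
    · exact (ff h g0).elim
    · omega
    · omega
    · exact (ff h g0').elim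
    · rw [SF4 hm1 hm2 hm]
      rcases hm with rfl | rfl
      · exact h
      · have h5 := hc.par 0 (by norm_num)
        rw [Nat.add_zero] at h5
        rw [h5]
        exact h
  by_cases h1 : y = 5 + 6 * i
  · subst h1
    have e : 5 + 6 * i = 4 + 6 * i + 1 := by omega
    have h' := h
    rw [e] at h'
    refine ⟨fun _ => Or.inl ⟨by simp only; omega, ?_⟩,
      fun _ => Or.inr (Or.inl ⟨rfl, hx1, hx2⟩)⟩
    simp only
    rcases S.vert (by norm_num) hx1 hx2 h' with ⟨hr, _⟩ | ⟨_, hr⟩ | ⟨_, hr⟩ | ⟨hr, _⟩ |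
      ⟨m, hm1, hm2, hm, hc⟩
    · exact Or.inl hr
    · omega
    · omega
    · exact Or.inr (Or.inr (Or.inr (Or.inl hr)))
    · exact Or.inr (Or.inr (Or.inr (Or.inr (btw_mk hm1 hm2 hm).1)))
  by_cases h2 : y = 6 + 6 * i
  · subst h2
    have e : 6 + 6 * i = 4 + 6 * i + 2 := by omega
    have h' := h
    rw [e] at h'
    have key : (x = 8 + 4 * k ∨ x = 5 + 4 * k' ∨ Helper34.Grid.btw k k' x) ∧ 8 + 4 * k ≤ x ∧
        x ≤ 5 + 4 * k' := by
      rcases S.vert (by norm_num) hx1 hx2 h' with ⟨rfl, _⟩ | ⟨hr, _⟩ | ⟨hr, _⟩ | ⟨rfl, _⟩ |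
        ⟨m, hm1, hm2, hm, hc⟩
      · exact (ff h g2).elim
      · exact ⟨Or.inl hr, by omega, by omega⟩
      · exact ⟨Or.inr (Or.inl hr), by omega, by omega⟩
      · exact (ff h g2').elim
      · exact ⟨Or.inr (Or.inr (btw_mk hm1 hm2 hm).1), by omega, by omega⟩
    obtain ⟨k1, k2, k3⟩ := key
    refine ⟨fun _ => Or.inr (Or.inr (Or.inl ⟨by simp only; omega, k2, k3⟩)),
      fun _ => Or.inl ⟨rfl, ?_⟩⟩
    simp only
    rcases k1 with k1 | k1 | k1
    · exact Or.inr (Or.inl k1)
    · exact Or.inr (Or.inr (Or.inl k1))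
    · exact Or.inr (Or.inr (Or.inr (Or.inr k1)))
  by_cases h3 : y = 7 + 6 * i
  · subst h3
    have e : 7 + 6 * i = 4 + 6 * i + 3 := by omega
    have h' := h
    rw [e] at h'
    have e8 : 7 + 6 * i + 1 = 8 + 6 * i := by omega
    rw [e8]
    rcases S.vert (by norm_num) hx1 hx2 h' with ⟨hr, _⟩ | ⟨_, hr⟩ | ⟨_, hr⟩ | ⟨hr, _⟩ |
      ⟨m, hm1, hm2, hm, hc⟩
    · subst hr
      simp only [SF, Helper34.Grid.btw]
      omega
    · omega
    · omega
    · subst hr
      simp only [SF, Helper34.Grid.btw]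
      omega
    · rw [SF8 hm1 hm2 hm]
      constructor
      · intro _
        rcases hm with rfl | rfl
        · exact h
        · have h5 := hc.par 3 (by norm_num)
          rw [← e] at h5
          rw [h5]
          exact h
      · intro _
        exact Or.inr (Or.inr (Or.inl ⟨rfl, by simp only; omega, by simp only; omega⟩))
  by_cases h4 : y = 8 + 6 * i
  · subst h4
    constructor
    · rintro (⟨h3, _⟩ | ⟨h3, _⟩ | ⟨h3, _⟩ | ⟨h3, _⟩ | ⟨_, h3, h4⟩)
      · simp only at h3; omega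
      · simp only at h3; omega
      · simp only at h3; omega
      · simp only at h3; omega
      · exfalso
        simp only at h3 h4
        obtain ⟨a1, a2, a3, a4⟩ := h3
        generalize hm : (x - 5) / 4 = m at *
        have e : 7 + 6 * i = 4 + 6 * i + 3 := by omega
        have h4' := h4
        rw [e] at h4'
        have hc := S.crs_of (by norm_num) a2 a3 h4'
        have hxm : x = 6 + 4 * m ∨ x = 7 + 4 * m := by omega
        rcases hxm with rfl | rfl
        · rw [hc.c4, h] at h4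
          exact absurd h4 (by simp)
        · have h5 := hc.par 3 (by norm_num)
          rw [← e] at h5
          rw [h5, hc.c4', h] at h4
          exact absurd h4 (by simp)
    · intro h1
      exfalso
      simp only [SF] at h1
      omega
  · constructor
    · intro h1
      exfalso
      simp only [SF] at h1
      omega
    · intro h1
      exfalso
      simp only [SF] at h1
      omega

end

lemma xor_isBlk {s : List Sub} {T : ℕ → Bool} {i k : ℕ} (h : IsBlk s T i k) :
    k ≤ s.length ∧ (xor_kd s T k i = .blk ∨ xor_kd s T k i = .dblk) := by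
  rcases h with ⟨d, h⟩ | ⟨h1, h2⟩
  · have hl : k < s.length := by
      by_contra hcon
      have : sg s k = none := by
        unfold sg
        rw [List.getD_eq_default _ _ (by omega)]
      rw [this] at h
      exact absurd h (by simp)
    refine ⟨hl.le, ?_⟩
    rw [xor_kd_lt hl]
    exact kind_blk h
  · refine ⟨h1.le, Or.inl ?_⟩
    unfold xor_kd
    rw [if_neg (by omega), if_neg h2]

/-- (XOR) two consecutive blocks of a row are in different states -/
theorem st_XOR : ST_XOR := by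
  intro s M T hU vU hs _ U i k k' hi hkk ho ho' hno heq
  obtain ⟨hl, hk⟩ := xor_isBlk ho
  obtain ⟨hl', hk'⟩ := xor_isBlk ho'
  have B := xor_blk U hl hi hk
  have B' := xor_blk U hl' hi hk'
  have S : xor_Sit s M T hU vU i k k' :=
    ⟨hs, U, hkk, hl', hi, hk, hk', fun m h1 h2 d h => hno m h1 h2 (Or.inl ⟨d, h⟩)⟩
  -- the vertices t1, t2, t3 of the block
  have v2 : Vert (hN s M T) (vN s M T) (7 + 4 * k, 6 + 6 * i) := by
    left
    have := xor_hcell s M T k 2 i 2 hl (by norm_num) hi (by norm_num)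
    have e1 : 5 + 4 * k + 2 = 7 + 4 * k := by omega
    have e2 : 4 + 6 * i + 2 = 6 + 6 * i := by omega
    rw [e1, e2] at this
    simp only
    rw [this]
    rcases hk with h | h <;> rw [h] <;> rfl
  have v1 : Vert (hN s M T) (vN s M T) (7 + 4 * k, 5 + 6 * i) := by
    left
    have := xor_hcell s M T k 2 i 1 hl (by norm_num) hi (by norm_num)
    have e1 : 5 + 4 * k + 2 = 7 + 4 * k := by omega
    have e2 : 4 + 6 * i + 1 = 5 + 6 * i := by omega
    rw [e1, e2] at this
    simp only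
    rw [this]
    rcases hk with h | h <;> rw [h] <;> rfl
  have v3 : Vert (hN s M T) (vN s M T) (7 + 4 * k, 7 + 6 * i) := by
    right; right; left
    have := xor_vcell s M T k 2 i 3 hl (by norm_num) hi (by norm_num)
    have e1 : 5 + 4 * k + 2 = 7 + 4 * k := by omega
    have e2 : 4 + 6 * i + 3 = 7 + 6 * i := by omega
    rw [e1, e2] at this
    simp only
    rw [this]
    rcases hk with h | h <;> rw [h] <;> rfl
  rcases hσ : vU (6 + 4 * k) (6 + 6 * i) with _ | _
  · -- both states false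
    have hσ' : vU (6 + 4 * k') (6 + 6 * i) = false := by
      unfold sigma at heq
      rw [← heq, hσ]
    have b1 := B.b1
    have t1 := B.t1
    have b1' := B'.b1
    have t3 := B.t3
    rw [B.b2, hσ] at b1
    rw [B.t2, hσ] at t1
    rw [B'.b2, hσ'] at b1'
    rw [hσ] at t3
    have g : hU (6 + 4 * k) (5 + 6 * i) = false := by
      revert b1
      cases hU (6 + 4 * k) (5 + 6 * i) <;> simp; omega
    have g0 : vU (7 + 4 * k) (4 + 6 * i) = false := by
      revert t1
      cases vU (7 + 4 * k) (4 + 6 * i) <;> simp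
    have g' : hU (6 + 4 * k') (5 + 6 * i) = false := by
      revert b1'
      cases hU (6 + 4 * k') (5 + 6 * i) <;> simp; omega
    have g0' : vU (6 + 4 * k') (4 + 6 * i) = false := by
      revert b1'
      cases vU (6 + 4 * k') (4 + 6 * i) <;> simp
    have := U.cut (SF vU i k k') (SF_h S g g') (SF_v S g0 g0' t3 hσ') _ _ v2 v3
      (Or.inl ⟨rfl, Or.inl rfl⟩)
    simp only [SF] at this
    omega
  · -- both states true
    have hσ' : vU (6 + 4 * k') (6 + 6 * i) = true := by
      unfold sigma at heq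
      rw [← heq, hσ]
    have g : hU (6 + 4 * k) (7 + 6 * i) = false := by rw [B.b3, hσ]; rfl
    have g' : hU (6 + 4 * k') (7 + 6 * i) = false := by rw [B'.b3, hσ']; rfl
    have q : vU (7 + 4 * k) (5 + 6 * i) = false := by rw [B.t2, hσ]; rfl
    have q' : vU (6 + 4 * k') (5 + 6 * i) = false := by rw [B'.b2, hσ']; rfl
    have := U.cut (Helper34.Grid.ST vU i k k') (ST_h S g g') (ST_v S q q') _ _ v2 v1
      (Or.inl ⟨rfl, Or.inl rfl⟩)
    simp only [Helper34.Grid.ST] at this
    omega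

end Pool.Agent.Helper96.SE
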